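import Mathlib
import Pool.Agent.Helper40.CX.CHI.Defs

/-!
# Additive base change of Weierstrass models in characteristic `p`, any model

`IsAS W V p`: the Weierstrass equation `V` is, over the affine line `(1 : w)`, the base change of
`W` by `u = w ^ p - w`, where `(1 : u)` is the coordinate of `W`. There is no condition at infinity.
`TrInv V`: the forms of `V` are invariant under `(u0, u1) ↦ (u0, u1 + u0)`, and `rotV` is the
automorphism `(u0 : u1; x : y : z) ↦ (u0 : u1 + u0; x : y : z)` of such a model.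
-/

set_option autoImplicit false
set_option linter.unusedSectionVars false

namespace CX.CHC

open CX.VC CX.VF Function Polynomial
open CX.Pool.Agent.Helper51.EW (Wei Coord WPt)

universe u

/-- `V` is the base change of `W` by `u = w ^ p - w` over the affine line. -/
structure IsAS {k : Type u} [Field k] (W V : Wei k) (p : ℕ) : Prop where
  A : MvPolynomial.aeval (![1, X] : Fin 2 → k[X]) V.A =
    MvPolynomial.aeval (![1, X ^ p - X] : Fin 2 → k[X]) W.A
  B : MvPolynomial.aeval (![1, X] : Fin 2 → k[X]) V.B =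
    MvPolynomial.aeval (![1, X ^ p - X] : Fin 2 → k[X]) W.B

/-- The forms of `V` are invariant under the translation. -/
structure TrInv {k : Type u} [Field k] (V : Wei k) : Prop where
  A : MvPolynomial.bind₁ (![MvPolynomial.X 0, MvPolynomial.X 1 + MvPolynomial.X 0] :
    Fin 2 → MvPolynomial (Fin 2) k) V.A = V.A
  B : MvPolynomial.bind₁ (![MvPolynomial.X 0, MvPolynomial.X 1 + MvPolynomial.X 0] :
    Fin 2 → MvPolynomial (Fin 2) k) V.B = V.B

/-- The translation of the coordinate. -/
def trw {K : Type u} [Field K] (u : Fin 2 → K) : Fin 2 → K := ![u 0, u 1 + u 0]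

section

variable {k : Type u} [Field k] {K : Type u} [Field K] [Algebra k K]

theorem aeval_poly (F : MvPolynomial (Fin 2) k) (f : k[X]) (T : K) :
    aeval T (MvPolynomial.aeval (![1, f] : Fin 2 → k[X]) F) =
      MvPolynomial.aeval (![1, aeval T f] : Fin 2 → K) F := by
  rw [MvPolynomial.comp_aeval_apply]
  congr 2
  funext i
  fin_cases i
  · change aeval T (1 : k[X]) = 1
    exact map_one _
  · rfl

theorem IsAS.aeval_A {W V : Wei k} {p : ℕ} (h : IsAS W V p) (T : K) :
    MvPolynomial.aeval (![1, T] : Fin 2 → K) V.A =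
      MvPolynomial.aeval (![1, T ^ p - T] : Fin 2 → K) W.A := by
  have h1 := congrArg (aeval T) h.A
  rw [aeval_poly, aeval_poly, aeval_X, map_sub, map_pow, aeval_X] at h1
  exact h1

theorem IsAS.aeval_B {W V : Wei k} {p : ℕ} (h : IsAS W V p) (T : K) :
    MvPolynomial.aeval (![1, T] : Fin 2 → K) V.B =
      MvPolynomial.aeval (![1, T ^ p - T] : Fin 2 → K) W.B := by
  have h1 := congrArg (aeval T) h.B
  rw [aeval_poly, aeval_poly, aeval_X, map_sub, map_pow, aeval_X] at h1
  exact h1

theorem aeval_tr (F : MvPolynomial (Fin 2) k) (u : Fin 2 → K) :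
    MvPolynomial.aeval u (MvPolynomial.bind₁ (![MvPolynomial.X 0,
      MvPolynomial.X 1 + MvPolynomial.X 0] : Fin 2 → MvPolynomial (Fin 2) k) F) =
      MvPolynomial.aeval (trw u) F := by
  rw [MvPolynomial.aeval_bind₁]
  congr 2
  funext i
  fin_cases i
  · change MvPolynomial.aeval u (MvPolynomial.X 0) = u 0
    simp
  · change MvPolynomial.aeval u (MvPolynomial.X 1 + MvPolynomial.X 0) = u 1 + u 0
    simp

theorem TrInv.aeval_A {V : Wei k} (h : TrInv V) (u : Fin 2 → K) :
    MvPolynomial.aeval (trw u) V.A = MvPolynomial.aeval u V.A := by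
  rw [← aeval_tr, h.A]

theorem TrInv.aeval_B {V : Wei k} (h : TrInv V) (u : Fin 2 → K) :
    MvPolynomial.aeval (trw u) V.B = MvPolynomial.aeval u V.B := by
  rw [← aeval_tr, h.B]

/-- Two forms of the same degree which agree on the affine line are equal. -/
theorem form_ext [Infinite k] {n : ℕ} {F G : MvPolynomial (Fin 2) k} (hF : F.IsHomogeneous n)
    (hG : G.IsHomogeneous n)
    (h : ∀ T : k, MvPolynomial.aeval (![1, T] : Fin 2 → k) F = MvPolynomial.aeval ![1, T] G) :
    F = G := by
  have h1 : (MvPolynomial.X 0 : MvPolynomial (Fin 2) k) * (F - G) = 0 := by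
    apply MvPolynomial.funext
    intro u
    rw [map_zero, map_mul, map_sub, MvPolynomial.eval_X]
    by_cases h0 : u 0 = 0
    · rw [h0, zero_mul]
    · have e : u = fun i => u 0 * (![1, u 1 / u 0] : Fin 2 → k) i := by
        funext i
        fin_cases i
        · change u 0 = u 0 * 1
          rw [mul_one]
        · change u 1 = u 0 * (u 1 / u 0)
          field_simp
      have e1 : ∀ {H : MvPolynomial (Fin 2) k}, H.IsHomogeneous n →
          MvPolynomial.eval u H = u 0 ^ n * MvPolynomial.aeval (![1, u 1 / u 0] : Fin 2 → k) H := by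
        intro H hH
        have h2 := CX.Pool.Agent.Helper51.EW.aeval_smul (K := k) hH (l := u 0)
          (u := ![1, u 1 / u 0])
        rw [← h2, ← e]
        rfl
      rw [e1 hF, e1 hG, h, sub_self, mul_zero]
  rcases mul_eq_zero.mp h1 with h2 | h2
  · exact absurd h2 (MvPolynomial.X_ne_zero 0)
  · exact sub_eq_zero.mp h2

theorem bind_hom {n : ℕ} {F : MvPolynomial (Fin 2) k} (hF : F.IsHomogeneous n) :
    (MvPolynomial.bind₁ (![MvPolynomial.X 0, MvPolynomial.X 1 + MvPolynomial.X 0] :
      Fin 2 → MvPolynomial (Fin 2) k) F).IsHomogeneous n := by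
  have h := hF.aeval (![MvPolynomial.X 0, MvPolynomial.X 1 + MvPolynomial.X 0] :
      Fin 2 → MvPolynomial (Fin 2) k) (n := 1) (by
    intro i
    fin_cases i
    · exact MvPolynomial.isHomogeneous_X k 0
    · exact (MvPolynomial.isHomogeneous_X k 1).add (MvPolynomial.isHomogeneous_X k 0))
  rwa [one_mul] at h

theorem IsAS.trInv [Infinite k] {W V : Wei k} {p : ℕ} [Fact p.Prime] [CharP k p]
    (h : IsAS W V p) : TrInv V := by
  have e : ∀ T : k, (T + 1) ^ p - (T + 1) = T ^ p - T := by
    intro T
    rw [add_pow_char, one_pow]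
    ring
  have e2 : ∀ T : k, trw (![1, T] : Fin 2 → k) = ![1, T + 1] := fun T => rfl
  constructor
  · refine form_ext (bind_hom V.hA) V.hA fun T => ?_
    rw [aeval_tr, e2, h.aeval_A, h.aeval_A, e]
  · refine form_ext (bind_hom V.hB) V.hB fun T => ?_
    rw [aeval_tr, e2, h.aeval_B, h.aeval_B, e]

/-- The automorphism on coordinates. -/
def rotVC {V : Wei k} (h : TrInv V) (a : Coord V K) : Coord V K where
  u := trw a.u
  w := a.w
  u_ne := by
    intro h
    have h0 : a.u 0 = 0 := congrFun h 0
    have h1 : a.u 1 + a.u 0 = 0 := congrFun h 1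
    apply a.u_ne
    funext i
    fin_cases i
    · exact h0
    · change a.u 1 = 0
      rw [h0, add_zero] at h1
      exact h1
  w_ne := a.w_ne
  eqn := by
    rw [h.aeval_A, h.aeval_B]
    exact a.eqn

/-- The automorphism `(u0 : u1; x : y : z) ↦ (u0 : u1 + u0; x : y : z)`. -/
def rotV {V : Wei k} (h : TrInv V) (q : WPt V K) : WPt V K :=
  Quotient.map (rotVC h) (by
    rintro a b ⟨l, c, hl, hc, h1, h2⟩
    refine ⟨l, c, hl, hc, fun i => ?_, h2⟩
    fin_cases i
    · exact h1 0
    · change b.u 1 + b.u 0 = l * (a.u 1 + a.u 0)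
      rw [h1 0, h1 1]; ring) q

theorem rotV_mk {V : Wei k} (h : TrInv V) (a : Coord V K) :
    rotV h (WPt.mk a) = WPt.mk (rotVC h a) := rfl

end

end CX.CHC
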