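import Mathlib
import Pool.Agent.Helper98.CHC.Def
import Pool.Agent.Helper98.CHA.Down

/-!
# CHC: lifts with fixed sum

`Rel h w0 r q` : over the affine line `q` is a lift of `r` to the model `V` of the base change,
such that the sum of the coordinates `w` is `w0`.
-/

set_option autoImplicit false
set_option linter.unusedSectionVars false

namespace CX.CHC

open CX.VC CX.VF Function
open CX.Pool.Agent.Helper51.EW
open CX.CHI (eig_iter)
open CX.CHA (exists_nat eig_dvd)

universe u

section rot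

variable {k : Type u} [Field k] {V : Wei k} {p : ℕ} {K : Type u} [Field K] [Algebra k K]
  {h : TrInv V}

theorem rot_iter (e : ℕ) (a : Coord V K) :
    ∃ b : Coord V K, (rotV h)^[e] (WPt.mk a) = WPt.mk b ∧
      b.u 0 = a.u 0 ∧ b.u 1 = a.u 1 + e * a.u 0 ∧ b.w = a.w := by
  induction e with
  | zero => exact ⟨a, rfl, rfl, by rw [Nat.cast_zero, zero_mul, add_zero], rfl⟩
  | succ e ih =>
    obtain ⟨b, h1, h2, h3, h4⟩ := ih
    refine ⟨rotVC h b, ?_, h2, ?_, h4⟩
    · rw [iterate_succ_apply', h1, rotV_mk]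
    · change b.u 1 + b.u 0 = _
      rw [h2, h3]
      push_cast
      ring

theorem mk_congr {a b : Coord V K} {c : K} (hc : c ≠ 0) (h0 : b.u 0 = a.u 0)
    (h1 : b.u 1 = a.u 1) (h2 : ∀ i, b.w i = c * a.w i) : WPt.mk a = WPt.mk b := by
  refine mk_eq_iff.mpr ⟨1, c, one_ne_zero, hc, fun i => ?_, fun i => ?_⟩
  · rw [one_mul]
    fin_cases i
    · exact h0
    · exact h1
  · rw [one_pow, one_mul]
    exact h2 i

theorem rot_period [Fact p.Prime] [CharP k p] (q : WPt V K) : (rotV h)^[p] q = q := by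
  have hc : CharP K p := charP_of_injective_algebraMap (algebraMap k K).injective p
  obtain ⟨a, rfl⟩ := exists_mk q
  obtain ⟨b, h1, h2, h3, h4⟩ := rot_iter (h := h) p a
  rw [h1]
  refine (mk_congr one_ne_zero h2 ?_ (fun i => ?_)).symm
  · rw [h3, CharP.cast_eq_zero K p, zero_mul, add_zero]
  · rw [one_mul, h4]

/-- The translation fixes the points over infinity. -/
theorem rot_fix {a : Coord V K} (h0 : a.u 0 = 0) : rotV h (WPt.mk a) = WPt.mk a := by
  rw [rotV_mk]
  refine (mk_congr (a := a) (b := rotVC h a) one_ne_zero rfl ?_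
    (fun i => (one_mul (a.w i)).symm)).symm
  change a.u 1 + a.u 0 = a.u 1
  rw [h0, add_zero]

theorem rotV_neg (q : WPt V K) : rotV h (neg q) = neg (rotV h q) := by
  obtain ⟨a, rfl⟩ := exists_mk q
  rw [neg_mk, rotV_mk, rotV_mk, neg_mk]
  rfl

end rot

section lifts

variable {k : Type u} [Field k] {W V : Wei k} {p n : ℕ}

/-- `q` is a lift of `r` over the affine line, and the sum of the coordinates is `w0`. -/
def Rel (p : ℕ) (w0 : k) (r : Fin n → WPt W k) (q : Fin n → WPt V k) : Prop :=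
  ∃ (a : Fin n → Coord V k) (b : Fin n → Coord W k), (∀ i, (a i).u 0 = 1) ∧
    (∀ i, (b i).u 0 = 1) ∧ (∀ i, (b i).u 1 = (a i).u 1 ^ p - (a i).u 1) ∧
    (∀ i, (b i).w = (a i).w) ∧ (∑ i, (a i).u 1 = w0) ∧
    (∀ i, q i = WPt.mk (a i)) ∧ ∀ i, r i = WPt.mk (b i)

theorem rel_unique [Fact p.Prime] [CharP k p] (h : TrInv V) {w0 : k} {r : Fin n → WPt W k}
    {q q' : Fin n → WPt V k} (hR : Rel p w0 r q) (hR' : Rel p w0 r q') :
    ∃ e : Fin n → ℕ, p ∣ ∑ i, e i ∧ ∀ i, q' i = (rotV h)^[e i] (q i) := by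
  obtain ⟨a, b, h1, h2, h3, h4, h5, h6, h7⟩ := hR
  obtain ⟨a', b', h1', h2', h3', h4', h5', h6', h7'⟩ := hR'
  have key : ∀ i, ∃ e : ℕ, (a i).u 1 + e = (a' i).u 1 ∧ q' i = (rotV h)^[e] (q i) := by
    intro i
    have e1 : (WPt.mk (b i) : WPt W k) = WPt.mk (b' i) := by
      rw [← h7, ← h7']
    obtain ⟨l, c, hl, hc, e2, e3⟩ := mk_eq_iff.mp e1
    have e4 : (b' i).u 0 = l * (b i).u 0 := e2 0
    rw [h2, h2', mul_one] at e4
    have e5 : (b' i).u 1 = l * (b i).u 1 := e2 1
    rw [← e4, one_mul, h3, h3'] at e5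
    have e6 : ((a' i).u 1 - (a i).u 1) ^ p = (a' i).u 1 - (a i).u 1 := by
      rw [sub_pow_char]
      linear_combination e5
    obtain ⟨e, he⟩ := exists_nat e6
    have e7 : (a i).u 1 + e = (a' i).u 1 := by
      rw [he]
      ring
    refine ⟨e, e7, ?_⟩
    obtain ⟨c', f1, f2, f3, f4⟩ := rot_iter (h := h) e (a i)
    rw [h6, h6', f1]
    refine (mk_congr hc ?_ ?_ (fun j => ?_)).symm
    · rw [f2, h1, h1']
    · rw [f3, h1, mul_one]
      exact e7.symm
    · rw [f4, ← h4, ← h4']
      have e8 : (b' i).w j = l ^ wt W.N j * c * (b i).w j := e3 j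
      rw [e8, ← e4, one_pow, one_mul]
  choose e he hq using key
  refine ⟨e, ?_, hq⟩
  rw [← CharP.cast_eq_zero_iff k p]
  have e1 : (∑ i, (a i).u 1) + ((∑ i, e i : ℕ) : k) = ∑ i, (a' i).u 1 := by
    push_cast
    rw [← Finset.sum_add_distrib]
    exact Finset.sum_congr rfl fun i _ => he i
  rw [h5, h5'] at e1
  linear_combination e1

open Classical in
/-- The function on the power of the surface over the `u`-line: the value at any lift with sum
of the coordinates `w0`, and zero if there is no such lift. -/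
noncomputable def phi (p : ℕ) (w0 : k) (Ψ : (Fin n → WPt V k) → ℂ) (r : Fin n → WPt W k) : ℂ :=
  if h : ∃ q : Fin n → WPt V k, Rel p w0 r q then Ψ h.choose else 0

theorem eig_dvd' [Fact p.Prime] {r : WPt V k → WPt V k} (hr : ∀ q, r^[p] q = q)
    {Ψ : (Fin n → WPt V k) → ℂ} {χ : ℂ}
    (hs : ∀ (q : Fin n → WPt V k) (i : Fin n), Ψ (update q i (r (q i))) = χ * Ψ q)
    {e : Fin n → ℕ} (he : p ∣ ∑ i, e i) (q : Fin n → WPt V k) :
    Ψ (fun i => r^[e i] (q i)) = Ψ q := by
  rw [eig_iter hs]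
  rcases Nat.eq_zero_or_pos n with hn | hn
  · subst hn
    simp
  · obtain ⟨t, ht⟩ := he
    have h1 : ∀ q, χ ^ p * Ψ q = Ψ q := by
      intro q
      have h2 := eig_iter hs (Pi.single ⟨0, hn⟩ p) q
      have h3 : (fun i => r^[(Pi.single (⟨0, hn⟩ : Fin n) p : Fin n → ℕ) i] (q i)) = q := by
        funext i
        by_cases hi : i = ⟨0, hn⟩
        · rw [hi, Pi.single_eq_same, hr]
        · rw [Pi.single_eq_of_ne hi]
          rfl
      rw [h3, Finset.sum_pi_single'] at h2
      simpa using h2.symm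
    rw [ht, pow_mul]
    clear ht
    induction t with
    | zero => rw [pow_zero, one_mul]
    | succ t ih => rw [pow_succ, mul_assoc, h1, ih]

theorem phi_eq [Fact p.Prime] [CharP k p] {h : TrInv V} {w0 : k} {Ψ : (Fin n → WPt V k) → ℂ}
    {χ : ℂ}
    (hs : ∀ (q : Fin n → WPt V k) (i : Fin n), Ψ (update q i (rotV h (q i))) = χ * Ψ q)
    {r : Fin n → WPt W k} {q : Fin n → WPt V k} (hR : Rel p w0 r q) :
    phi p w0 Ψ r = Ψ q := by
  have hex : ∃ q : Fin n → WPt V k, Rel p w0 r q := ⟨q, hR⟩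
  unfold phi
  rw [dif_pos hex]
  obtain ⟨e, he, hq⟩ := rel_unique h hR hex.choose_spec
  have h1 : hex.choose = fun i => (rotV h)^[e i] (q i) := funext hq
  rw [h1]
  exact eig_dvd' rot_period hs he q

theorem phi_zero {w0 : k} {Ψ : (Fin n → WPt V k) → ℂ} {r : Fin n → WPt W k}
    (h : ¬ ∃ q : Fin n → WPt V k, Rel p w0 r q) : phi p w0 Ψ r = 0 := by
  unfold phi
  rw [dif_neg h]

theorem rel_neg {w0 : k} {r : Fin n → WPt W k} {q : Fin n → WPt V k}
    (h : Rel p w0 r q) (i : Fin n) :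
    Rel p w0 (update r i (neg (r i))) (update q i (neg (q i))) := by
  obtain ⟨a, b, h1, h2, h3, h4, h5, h6, h7⟩ := h
  have e1 : ∀ j, (update a i (negC (a i)) j).u = (a j).u := by
    intro j
    by_cases hj : j = i
    · subst hj
      rw [update_self]
      rfl
    · rw [update_of_ne hj]
  have e2 : ∀ j, (update b i (negC (b i)) j).u = (b j).u := by
    intro j
    by_cases hj : j = i
    · subst hj
      rw [update_self]
      rfl
    · rw [update_of_ne hj]
  refine ⟨update a i (negC (a i)), update b i (negC (b i)), fun j => ?_, fun j => ?_, fun j => ?_,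
    fun j => ?_, ?_, fun j => ?_, fun j => ?_⟩
  · rw [e1]
    exact h1 j
  · rw [e2]
    exact h2 j
  · rw [e1, e2]
    exact h3 j
  · by_cases hj : j = i
    · subst hj
      rw [update_self, update_self]
      have h8 := h4 j
      funext l
      change ![(b j).w 0, -(b j).w 1, (b j).w 2] l = ![(a j).w 0, -(a j).w 1, (a j).w 2] l
      rw [h8]
    · rw [update_of_ne hj, update_of_ne hj, h4]
  · simp only [e1]
    exact h5
  · by_cases hj : j = i
    · subst hj
      rw [update_self, update_self, h6, neg_mk]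
    · rw [update_of_ne hj, update_of_ne hj, h6]
  · by_cases hj : j = i
    · subst hj
      rw [update_self, update_self, h7, neg_mk]
    · rw [update_of_ne hj, update_of_ne hj, h7]

theorem rel_swap {w0 : k} {r : Fin n → WPt W k} {q : Fin n → WPt V k}
    (h : Rel p w0 r q) (σ : Equiv.Perm (Fin n)) :
    Rel p w0 (fun l => r (σ l)) (fun l => q (σ l)) := by
  obtain ⟨a, b, h1, h2, h3, h4, h5, h6, h7⟩ := h
  refine ⟨fun l => a (σ l), fun l => b (σ l), fun j => h1 _, fun j => h2 _, fun j => h3 _,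
    fun j => h4 _, ?_, fun j => h6 _, fun j => h7 _⟩
  rw [← h5]
  exact Equiv.sum_comp σ (fun l => (a l).u 1)

end lifts

end CX.CHC
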