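import Mathlib
import Pool.Agent.Helper98.CHC.Std
import Pool.Agent.Helper98.CHA.Phi

/-!
# CHC: the function over the `u`-line

The value of `phi` at the value of a curve on which the sum of the coordinates of the base is
constant.
-/

set_option autoImplicit false
set_option linter.unusedSectionVars false

namespace CX.CHC

open CX.VC CX.VF Function
open CX.Pool.Agent.Helper51.EW CX.Pool.Agent.Helper51.VN
open CX.Pool.Agent.Helper83.CHA (Cor OddC Prc)
open CX.CHA (cor_base_ne cor_base_eqn pt_mk)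

universe u

section std

variable {k : Type u} [Field k] {W V : Wei k} {p : ℕ} {K : Type u} [Field K]
  [Algebra k K]

/-- The projection of the affine part. -/
def down (hV : IsAS W V p) (a : Coord V K) (ha : a.u 0 = 1) : Coord W K where
  u := ![1, a.u 1 ^ p - a.u 1]
  w := a.w
  u_ne := by
    intro h
    exact one_ne_zero (α := K) (congrFun h 0)
  w_ne := a.w_ne
  eqn := by
    have h := a.eqn
    have e : a.u = ![1, a.u 1] := by
      funext i
      fin_cases i
      · exact ha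
      · rfl
    rw [e, hV.aeval_A, hV.aeval_B] at h
    exact h

/-- Normalised coordinates. -/
theorem norm_coord {v : Coord V K} (h : v.u 0 ≠ 0) :
    (scale v (v.u 0)⁻¹ 1 (inv_ne_zero h) one_ne_zero).u 0 = 1 := by
  change (v.u 0)⁻¹ * v.u 0 = 1
  exact inv_mul_cancel₀ h

variable [Good k]

theorem onE_std (hV : IsAS W V p) {D : Cor W} (hD : IsSt D) {D' : Cor V} (hD' : IsSt D')
    {T x y : K} :
    OnE (D'.a T) (D'.b T) x y ↔ OnE (D.a (T ^ p - T)) (D.b (T ^ p - T)) x y := by
  rw [std_a hV hD hD', std_b hV hD hD']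

end std

section main

variable {k : Type u} [Field k] [IsAlgClosed k] [Good k] {W V : Wei k} {p n : ℕ}

/-- An eigenfunction vanishes if a component lies over infinity. -/
theorem psi_fix {h : TrInv V} {Ψ : (Fin n → WPt V k) → ℂ} {χ : ℂ} (hχ : χ ≠ 1)
    (hs : ∀ (q : Fin n → WPt V k) (i : Fin n), Ψ (update q i (rotV h (q i))) = χ * Ψ q)
    {q : Fin n → WPt V k} {i : Fin n} {a : Coord V k}
    (hq : q i = WPt.mk a) (h0 : a.u 0 = 0) : Ψ q = 0 := by
  have h1 := hs q i
  rw [hq, rot_fix h0, ← hq, update_eq_self] at h1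
  have h2 : (χ - 1) * Ψ q = 0 := by linear_combination -h1
  exact (mul_eq_zero.mp h2).resolve_left (sub_ne_zero.mpr hχ)

/-- A tuple with a lift has no component over infinity. -/
theorem rel_ne {w0 : k} {r : Fin n → WPt W k} {q : Fin n → WPt V k} (h : Rel p w0 r q)
    {i : Fin n} {a : Coord W k} (ha : r i = WPt.mk a) : a.u 0 ≠ 0 := by
  obtain ⟨a', b, h1, h2, h3, h4, h5, h6, h7⟩ := h
  have e1 : (WPt.mk a : WPt W k) = WPt.mk (b i) := by
    rw [← ha, h7]
  obtain ⟨l, c, hl, hc, e2, e3⟩ := mk_eq_iff.mp e1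
  have f1 : (b i).u 0 = l * a.u 0 := e2 0
  intro h0
  rw [h0, mul_zero, h2] at f1
  exact one_ne_zero f1

/-- The coordinates of the value of an affine point at a place. -/
theorem val_coords {K : Type u} [Field K] [Algebra k K] (hK : IsFunctionField k K)
    {D : Cor V} (hD : IsSt D) {T x y : K} (h : OnE (D.a T) (D.b T) x y)
    (v : Place k K) : ∃ (a : Coord V K) (b : Coord V k),
      D.pt T x y = WPt.mk a ∧ V.surface.eval hK (D.pt T x y) v = WPt.mk b ∧
      (∀ i, IsRes v (a.u i) (b.u i)) ∧ (∀ i, IsRes v (a.w i) (b.w i)) ∧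
      a.u 1 = T * a.u 0 ∧ a.u 0 ≠ 0 := by
  obtain ⟨a, b, h1, h2, h3, h4⟩ := exists_coords hK v (D.pt T x y)
  refine ⟨a, b, h1, h2, h3, h4, ?_⟩
  rw [pt_mk D h] at h1
  obtain ⟨l, c, hl, hc, e1, e2⟩ := mk_eq_iff.mp h1
  have f0 : a.u 0 = l * D.base T 0 := e1 0
  have f1 : a.u 1 = l * D.base T 1 := e1 1
  rw [hD.base] at f0 f1
  change a.u 0 = l * 1 at f0
  change a.u 1 = l * T at f1
  rw [f0, f1, mul_one]
  exact ⟨mul_comm _ _, hl⟩

/-- A residue of `T ^ p - T` gives a residue of `T`. -/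
theorem res_of_as [hpp : Fact p.Prime] {K : Type u} [Field K] [Algebra k K]
    (hK : IsFunctionField k K) {v : Place k K} {T : K} {c : k} (h : IsRes v (T ^ p - T) c) :
    ∃ e : k, IsRes v T e := by
  by_cases hT : T ∈ v.ring
  · exact exists_res hK hT
  · exfalso
    have hT0 : T ≠ 0 := by
      rintro rfl
      exact hT v.ring.zero_mem
    have h1 : IsRes v T⁻¹ 0 := by
      apply isRes_zero_iff.mpr
      rw [ValuationSubring.mem_nonunits_iff_or, inv_inv]
      exact Or.inr hT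
    have h2 : IsRes v (T⁻¹ ^ p * (T ^ p - T)) (0 ^ p * c) := (h1.pow p).mul h
    have h3 : T⁻¹ ^ p * (T ^ p - T) = 1 - T⁻¹ ^ (p - 1) := by
      have hp := hpp.out.one_le
      have e : T⁻¹ ^ p = T⁻¹ ^ (p - 1) * T⁻¹ := by rw [← pow_succ, Nat.sub_add_cancel hp]
      rw [mul_sub, ← mul_pow, inv_mul_cancel₀ hT0, one_pow, e, mul_assoc, inv_mul_cancel₀ hT0,
        mul_one]
    have h4 : IsRes v (1 - T⁻¹ ^ (p - 1)) (1 - 0 ^ (p - 1)) := by
      have e1 : IsRes v (1 : K) (1 : k) := by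
        have := isRes_const (v := v) (1 : k)
        rwa [map_one] at this
      exact e1.sub (h1.pow (p - 1))
    rw [h3] at h2
    have h5 := h2.unique h4
    have hp2 := hpp.out.two_le
    rw [zero_pow (by omega), zero_pow (by omega), zero_mul, sub_zero] at h5
    exact zero_ne_one h5

/-- The value of the projection of an affine point, over the affine line. -/
theorem val_down (hV : IsAS W V p) {K : Type u} [Field K] [Algebra k K]
    (hK : IsFunctionField k K) {D : Cor W} (hD : IsSt D) {D' : Cor V} (hD' : IsSt D') {T x y : K}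
    (h : OnE (D'.a T) (D'.b T) x y) (v : Place k K) {a : Coord V K} {b : Coord V k}
    (h1 : D'.pt T x y = WPt.mk a) (h3 : ∀ i, IsRes v (a.u i) (b.u i))
    (h4 : ∀ i, IsRes v (a.w i) (b.w i)) (h5 : a.u 1 = T * a.u 0) (ha : a.u 0 = 1)
    (hb : b.u 0 = 1) :
    W.surface.eval hK (D.pt (T ^ p - T) x y) v = WPt.mk (down hV b hb) := by
  rw [ha, mul_one] at h5
  have e1 : D.pt (T ^ p - T) x y = WPt.mk (down hV a ha) := by
    rw [pt_mk D' h] at h1
    rw [pt_mk D ((onE_std hV hD hD').mp h)]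
    obtain ⟨l, c, hl, hc, e1, e2⟩ := mk_eq_iff.mp h1
    have f0 : a.u 0 = l * D'.base T 0 := e1 0
    rw [hD'.base] at f0
    change a.u 0 = l * 1 at f0
    rw [ha, mul_one] at f0
    refine mk_eq_iff.mpr ⟨1, c, one_ne_zero, hc, fun i => ?_, fun i => ?_⟩
    · rw [one_mul]
      change ![1, a.u 1 ^ p - a.u 1] i = D.base (T ^ p - T) i
      rw [hD.base, h5]
    · rw [one_pow, one_mul]
      have e3 := e2 i
      rw [← f0, one_pow, one_mul] at e3
      exact e3
  have h6 : ∀ i, IsRes v ((down hV a ha).u i) ((down hV b hb).u i) := by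
    intro i
    fin_cases i
    · change IsRes v (1 : K) (1 : k)
      have := isRes_const (v := v) (1 : k)
      rwa [map_one] at this
    · exact ((h3 1).pow p).sub (h3 1)
  rw [e1, eval_eq hK v (down hV a ha) (down hV b hb) h6 h4]

/-- The value of `phi` at the value of a curve. -/
theorem phi_val [Fact p.Prime] [CharP k p] (hV : IsAS W V p) {h : TrInv V} {D : Cor W}
    (hD : IsSt D) {D' : Cor V} (hD' : IsSt D') {Ψ : (Fin n → WPt V k) → ℂ} {χ : ℂ} (hχ : χ ≠ 1)
    (hs : ∀ (q : Fin n → WPt V k) (i : Fin n), Ψ (update q i (rotV h (q i))) = χ * Ψ q) {w0 : k}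
    {K : Type u} [Field K] [Algebra k K] (hK : IsFunctionField k K) {T x y : Fin n → K}
    (hE : ∀ i, OnE (D'.a (T i)) (D'.b (T i)) (x i) (y i)) (hT : ∑ i, T i = algebraMap k K w0)
    (v : Place k K) :
    phi p w0 Ψ (fun i => W.surface.eval hK (D.pt (T i ^ p - T i) (x i) (y i)) v) =
      Ψ (fun i => V.surface.eval hK (D'.pt (T i) (x i) (y i)) v) := by
  choose a b h1 h2 h3 h4 h5 h6 using fun i => val_coords hK hD' (hE i) v
  by_cases hgood : ∀ i, (b i).u 0 ≠ 0
  · -- normalised coordinates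
    have h7 : ∀ i, IsRes v ((a i).u 0)⁻¹ ((b i).u 0)⁻¹ := fun i => (h3 i 0).inv hK (hgood i)
    obtain ⟨a', ha'⟩ : ∃ a' : Fin n → Coord V K, a' = fun i =>
      scale (a i) ((a i).u 0)⁻¹ 1 (inv_ne_zero (h6 i)) one_ne_zero := ⟨_, rfl⟩
    obtain ⟨b', hb'⟩ : ∃ b' : Fin n → Coord V k, b' = fun i =>
      scale (b i) ((b i).u 0)⁻¹ 1 (inv_ne_zero (hgood i)) one_ne_zero := ⟨_, rfl⟩
    have ha0 : ∀ i, (a' i).u 0 = 1 := fun i => by rw [ha']; exact norm_coord (h6 i)
    have hb0 : ∀ i, (b' i).u 0 = 1 := fun i => by rw [hb']; exact norm_coord (hgood i)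
    have g1 : ∀ i, D'.pt (T i) (x i) (y i) = WPt.mk (a' i) := by
      intro i
      rw [h1, ha']
      exact (same_scale (a i) _ 1 (inv_ne_zero (h6 i)) one_ne_zero).symm
    have g2 : ∀ i, V.surface.eval hK (D'.pt (T i) (x i) (y i)) v = WPt.mk (b' i) := by
      intro i
      rw [h2, hb']
      exact (same_scale (b i) _ 1 (inv_ne_zero (hgood i)) one_ne_zero).symm
    have g3 : ∀ i j, IsRes v ((a' i).u j) ((b' i).u j) := by
      intro i j
      rw [ha', hb']
      exact (h7 i).mul (h3 i j)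
    have g4 : ∀ i j, IsRes v ((a' i).w j) ((b' i).w j) := by
      intro i j
      rw [ha', hb']
      change IsRes v (((a i).u 0)⁻¹ ^ wt V.N j * 1 * (a i).w j)
        (((b i).u 0)⁻¹ ^ wt V.N j * 1 * (b i).w j)
      rw [mul_one, mul_one]
      exact ((h7 i).pow _).mul (h4 i j)
    have g5 : ∀ i, (a' i).u 1 = T i * (a' i).u 0 := by
      intro i
      rw [ha0, ha', mul_one]
      change ((a i).u 0)⁻¹ * (a i).u 1 = T i
      rw [h5, mul_comm, mul_assoc, mul_inv_cancel₀ (h6 i), mul_one]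
    apply phi_eq hs
    refine ⟨b', fun i => down hV (b' i) (hb0 i), hb0, fun i => rfl, fun i => rfl, fun i => rfl,
      ?_, g2, fun i => val_down hV hK hD hD' (hE i) v (g1 i) (g3 i) (g4 i) (g5 i) (ha0 i) (hb0 i)⟩
    have e1 : IsRes v (∑ i, T i) (∑ i, (b' i).u 1) := by
      refine IsRes.sum Finset.univ fun i _ => ?_
      have := g3 i 1
      rwa [g5, ha0, mul_one] at this
    rw [hT] at e1
    exact ((isRes_const (v := v) w0).unique e1).symm
  · push Not at hgood
    obtain ⟨i, hi⟩ := hgood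
    rw [psi_fix hχ hs (i := i) (h2 i) hi]
    apply phi_zero
    rintro ⟨q, hq⟩
    obtain ⟨a', b', f1, f2, f3, f4, f5, f6⟩ :=
      val_coords hK hD ((onE_std hV hD hD').mp (hE i)) v
    apply rel_ne hq (i := i) (a := b') f2
    by_contra hb0
    have e1 : IsRes v ((a' ).u 0)⁻¹ (b'.u 0)⁻¹ := (f3 0).inv hK hb0
    have e2 : IsRes v (T i ^ p - T i) (b'.u 1 * (b'.u 0)⁻¹) := by
      have e3 := (f3 1).mul e1
      rw [f5, mul_assoc, mul_inv_cancel₀ f6, mul_one] at e3
      exact e3
    obtain ⟨τ, hτ⟩ := res_of_as hK e2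
    have e4 : IsRes v ((a i).u 1) (τ * (b i).u 0) := by
      rw [h5]
      exact hτ.mul (h3 i 0)
    rw [hi, mul_zero] at e4
    apply (b i).u_ne
    funext j
    fin_cases j
    · exact hi
    · exact (h3 i 1).unique e4

end main

end CX.CHC
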