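import Mathlib
import Pool.Agent.Helper98.CHC.Phi
import Pool.Agent.Helper98.CHA.Phi2

/-!
# CHC: the function over the `u`-line (final theorem)
-/

set_option autoImplicit false
set_option linter.unusedSectionVars false

namespace CX.CHC

open CX.VC CX.VF Function
open CX.Pool.Agent.Helper51.EW CX.Pool.Agent.Helper51.VN
open CX.Pool.Agent.Helper83.CHA (Cor OddC Prc)
open CX.CHA (cor_base_ne cor_base_eqn pt_mk exists_asr exists_nat onE_map wmap_pt)

universe u

variable {k : Type u} [Field k] [IsAlgClosed k] [Good k] {W V : Wei k} {p n : ℕ}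
  [hpp : Fact p.Prime] [CharP k p]

theorem phi_gen (hV : IsAS W V p) {h : TrInv V} {D : Cor W} (hD : IsSt D)
    {D' : Cor V} (hD' : IsSt D') {Ψ : (V.surface.pow n).Pt → ℂ}
    (hk : Kills (V.surface.pow n) Ψ) {χ : ℂ} (hχ : χ ≠ 1)
    (hs : ∀ (q : Fin n → WPt V k) (i : Fin n), Ψ (update q i (rotV h (q i))) = χ * Ψ q) {w0 : k}
    (K : Type u) [Field K] [Algebra k K] (hK : IsFunctionField k K) (t x y : Fin n → K)
    (hE : ∀ i, OnE (D.a (t i)) (D.b (t i)) (x i) (y i))
    (ht : ∑ i, t i = algebraMap k K (w0 ^ p - w0))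
    (f : K) (hf : f ≠ 0) :
    ∑ w ∈ (finite_support_ord hK hf).toFinset, (ord w.ring f : ℂ) *
      phi p w0 Ψ ((W.surface.pow n).eval hK (fun i => D.pt (t i) (x i) (y i)) w) = 0 := by
  classical
  rcases Nat.eq_zero_or_pos n with hn | hn
  · subst hn
    by_cases hR : ∃ q : Fin 0 → WPt V k, Rel p w0 (fun i : Fin 0 => (i.elim0 : WPt W k)) q
    · obtain ⟨q, hq⟩ := hR
      have h1 := hk.gen hK (fun i : Fin 0 => (i.elim0 : WPt V K)) hf
      rw [← h1]
      refine Finset.sum_congr rfl fun w _ => ?_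
      congr 1
      have e1 : (W.surface.pow 0).eval hK (fun i => D.pt (t i) (x i) (y i)) w =
          fun i : Fin 0 => (i.elim0 : WPt W k) := funext fun i => i.elim0
      have e2 : (V.surface.pow 0).eval hK
          (fun i : Fin 0 => (i.elim0 : WPt V K)) w = q := funext fun i => i.elim0
      rw [e1, e2]
      exact phi_eq hs hq
    · apply Finset.sum_eq_zero
      intro w _
      have e1 : (W.surface.pow 0).eval hK (fun i => D.pt (t i) (x i) (y i)) w =
          fun i : Fin 0 => (i.elim0 : WPt W k) := funext fun i => i.elim0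
      rw [e1, phi_zero hR, mul_zero]
  · obtain ⟨L, _, _, _, _, τ, hL, hτ⟩ := exists_asr hK hpp.out.one_lt t
    have hcL : CharP L p := charP_of_injective_algebraMap (algebraMap k L).injective p
    have hd : ((∑ i, τ i) - algebraMap k L w0) ^ p = (∑ i, τ i) - algebraMap k L w0 := by
      have e1 : (∑ i, τ i) ^ p - ∑ i, τ i = algebraMap k L (w0 ^ p - w0) := by
        have e2 : (∑ i, τ i) ^ p = ∑ i, τ i ^ p := sum_pow_char p Finset.univ τ
        rw [e2, ← Finset.sum_sub_distrib, Finset.sum_congr rfl fun i _ => hτ i, ← map_sum, ht,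
          ← IsScalarTower.algebraMap_apply]
      rw [map_sub, map_pow] at e1
      rw [sub_pow_char]
      linear_combination e1
    obtain ⟨e, he⟩ := exists_nat hd
    obtain ⟨T, hTdef⟩ : ∃ T : Fin n → L, T = update τ ⟨0, hn⟩ (τ ⟨0, hn⟩ - (e : L)) := ⟨_, rfl⟩
    have hecast : ((e : L)) ^ p = (e : L) := by
      have h0 := map_natCast (frobenius L p) e
      rwa [frobenius_def] at h0
    have hTm : ∀ i, T i ^ p - T i = algebraMap K L (t i) := by
      intro i
      rw [hTdef]
      by_cases hi : i = ⟨0, hn⟩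
      · subst hi
        rw [update_self, sub_pow_char, hecast, ← hτ]
        ring
      · rw [update_of_ne hi, hτ]
    have hTp : ∑ i, T i = algebraMap k L w0 := by
      rw [hTdef, Finset.sum_update_of_mem (Finset.mem_univ _)]
      have h1 : τ ⟨0, hn⟩ + ∑ i ∈ Finset.univ \ {(⟨0, hn⟩ : Fin n)}, τ i = ∑ i, τ i := by
        rw [← Finset.sum_update_of_mem (Finset.mem_univ _), update_eq_self]
      linear_combination h1 - he
    have hE' : ∀ i, OnE (D'.a (T i)) (D'.b (T i)) (algebraMap K L (x i)) (algebraMap K L (y i)) := by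
      intro i
      rw [onE_std hV hD hD', hTm]
      exact onE_map D (hE i)
    have hf' : algebraMap K L f ≠ 0 := by
      rw [Ne, _root_.map_eq_zero]
      exact hf
    have h1 := hk.gen hL (fun i => D'.pt (T i) (algebraMap K L (x i)) (algebraMap K L (y i))) hf'
    refine CX.Pool.Agent.Helper83.QF.kills_res hK hL (fun v => phi p w0 Ψ
      ((W.surface.pow n).eval hK (fun i => D.pt (t i) (x i) (y i)) v)) hf hf' ?_
    rw [← h1]
    refine Finset.sum_congr rfl fun w _ => ?_
    congr 1
    have h2 := phi_val hV hD hD' hχ hs hL hE' hTp w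
    change phi p w0 Ψ (fun i => W.surface.eval hK (D.pt (t i) (x i) (y i)) (VQ.res hK hL w)) =
      Ψ (fun i => V.surface.eval hL
        (D'.pt (T i) (algebraMap K L (x i)) (algebraMap K L (y i))) w)
    rw [← h2]
    congr 1
    funext i
    rw [← CX.Pool.Agent.Helper83.QF.wmap_eval hK hL, wmap_pt D (hE i), hTm]

theorem exists_phi (hV : IsAS W V p) {h : TrInv V} {D : Cor W} (hD : IsSt D) {D' : Cor V}
    (hD' : IsSt D') {Psi : (V.surface.pow n).Pt → ℂ} (hO : Odd V n Psi) {chi : ℂ}
    (hchi : chi ≠ 1)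
    (hs : ∀ (q : (V.surface.pow n).Pt) (i : Fin n),
      Psi (update q i (rotV h (q i))) = chi * Psi q) (w0 : k) :
    ∃ Phi : (W.surface.pow n).Pt → ℂ, OddC D n (w0 ^ p - w0) Phi ∧
      ∀ w x y : Fin n → k, (∀ i, OnE (D'.a (w i)) (D'.b (w i)) (x i) (y i)) → ∑ i, w i = w0 →
        Phi (fun i => D.pt (w i ^ p - w i) (x i) (y i)) = Psi (fun i => D'.pt (w i) (x i) (y i)) := by
  classical
  refine ⟨phi p w0 Psi, ⟨?_, ?_, ?_, ?_, ?_⟩, ?_⟩
  · intro K _ _ hK t x y hE ht f hf
    exact phi_gen hV hD hD' hO.kills hchi hs K hK t x y hE ht f hf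
  · intro r i
    by_cases hR : ∃ q : Fin n → WPt V k, Rel p w0 r q
    · obtain ⟨q, hq⟩ := hR
      rw [phi_eq hs hq, phi_eq hs (rel_neg hq i)]
      exact hO.odd q i
    · rw [phi_zero hR, phi_zero, neg_zero]
      rintro ⟨q, hq⟩
      apply hR
      have h1 := rel_neg hq i
      rw [update_self, update_idem, neg_neg', update_eq_self] at h1
      exact ⟨_, h1⟩
  · intro i j hij r
    by_cases hR : ∃ q : Fin n → WPt V k, Rel p w0 r q
    · obtain ⟨q, hq⟩ := hR
      rw [phi_eq hs hq, phi_eq hs (rel_swap hq (Equiv.swap i j))]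
      exact hO.alt i j hij q
    · rw [phi_zero hR, phi_zero, neg_zero]
      rintro ⟨q, hq⟩
      apply hR
      have h1 := rel_swap hq (Equiv.swap i j)
      have h2 : (fun l => r (Equiv.swap i j (Equiv.swap i j l))) = r := by
        funext l
        rw [Equiv.swap_apply_self]
      rw [h2] at h1
      exact ⟨_, h1⟩
  · intro r i a ha hsing
    by_cases hR : ∃ q : Fin n → WPt V k, Rel p w0 r q
    · obtain ⟨q, hq⟩ := hR
      rw [phi_eq hs hq]
      obtain ⟨c, b, h1, h2, h3, h4, h5, h6, h7⟩ := hq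
      have e1 : (WPt.mk a : WPt W k) = WPt.mk (b i) := by
        rw [← ha, h7]
      obtain ⟨l, c', hl, hc, e2, e3⟩ := mk_eq_iff.mp e1
      refine CX.Pool.Agent.Helper83.VN.odd_sing hO (i := i) (h6 i) ?_
      have e4 : (b i).u = fun s => l * a.u s := funext fun s => e2 s
      have e5 : (![1, (c i).u 1 ^ p - (c i).u 1] : Fin 2 → k) = fun s => l * a.u s := by
        rw [← e4]
        funext s
        fin_cases s
        · exact (h2 i).symm
        · exact (h3 i).symm
      have e6 : (c i).u = ![1, (c i).u 1] := by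
        funext s
        fin_cases s
        · exact h1 i
        · rfl
      rw [e6, hV.aeval_A, hV.aeval_B, e5, aeval_smul W.hA, aeval_smul W.hB]
      linear_combination l ^ (12 * W.N) * hsing
    · exact phi_zero hR
  · intro r i a ha hinf
    apply phi_zero
    rintro ⟨q, hq⟩
    have f1 := rel_ne hq (i := i) ha
    rw [hD.e1] at hinf
    change a.u 0 * 1 - a.u 1 * 0 = 0 at hinf
    apply f1
    linear_combination hinf
  · intro w x y hE hw
    have hE' : ∀ i, D'.pt (w i) (x i) (y i) = WPt.mk (affC (D'.base (w i)) (x i) (y i)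
      (cor_base_ne D' (w i)) (cor_base_eqn D' (hE i))) := fun i => pt_mk D' (hE i)
    have hE2 : ∀ i, OnE (D.a (w i ^ p - w i)) (D.b (w i ^ p - w i)) (x i) (y i) :=
      fun i => (onE_std hV hD hD').mp (hE i)
    apply phi_eq hs
    refine ⟨fun i => affC (D'.base (w i)) (x i) (y i) (cor_base_ne D' (w i))
      (cor_base_eqn D' (hE i)), fun i => affC (D.base (w i ^ p - w i)) (x i) (y i)
      (cor_base_ne D _) (cor_base_eqn D (hE2 i)), fun i => ?_, fun i => ?_, fun i => ?_,
      fun i => rfl, ?_, hE', fun i => pt_mk D (hE2 i)⟩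
    · change D'.base (w i) 0 = 1
      rw [hD'.base]
      rfl
    · change D.base (w i ^ p - w i) 0 = 1
      rw [hD.base]
      rfl
    · change D.base (w i ^ p - w i) 1 = D'.base (w i) 1 ^ p - D'.base (w i) 1
      rw [hD.base, hD'.base]
      rfl
    · rw [← hw]
      refine Finset.sum_congr rfl fun i _ => ?_
      change D'.base (w i) 1 = w i
      rw [hD'.base]
      rfl

end CX.CHC
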