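import Mathlib
import Pool.Agent.Helper98.CHC.Mv3
import Pool.Agent.Helper98.CHI.Cor

/-!
# CHC: Voisin's property for the characters of an additive base change of a Weierstrass surface
-/

set_option autoImplicit false
set_option linter.unusedSectionVars false

namespace CX.CHC

open CX.VC CX.VF Function
open CX.CHI (VoisinChi voisinChi_of_odd)
open CX.Pool.Agent.Helper51.EW (Wei)

universe u

variable {k : Type u} [Field k] [IsAlgClosed k] [Good k]

/-- Voisin's property for the character `χ ≠ 1` of the translation `w ↦ w + 1` of a Weierstrass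
surface `V` which, over the affine line, is the base change by `u = w ^ p - w` of a Weierstrass
surface `W` with non-constant `j` in characteristic `p`, and `n > W.N`. -/
theorem voisinChi_wei {W V : Wei k} {p n : ℕ} [Fact p.Prime] [CharP k p] (hV : IsAS W V p)
    (hT : TrInv V) (h1 : 1 ≤ W.N) (hn : W.N + 1 ≤ n)
    (hj : ∀ c d : k, (c ≠ 0 ∨ d ≠ 0) →
      MvPolynomial.C c * W.A ^ 3 ≠ MvPolynomial.C d * W.B ^ 2) {χ : ℂ} (hχ : χ ≠ 1) :
    VoisinChi V.surface (rotV hT) χ n :=
  voisinChi_of_odd hχ (fun q => rotV_neg q) fun _ h hs r => chi_zero hV h1 hn hj h hχ hs r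

end CX.CHC
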