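import Mathlib
import Pool.Agent.Helper98.CHC.Def
import Pool.Agent.Helper9.CHI.Mini

/-!
# CHC: minimal models of base changes

`exists_model`: polynomials `f`, `g` such that for no `τ` both `(X - τ) ^ 4 ∣ f` and
`(X - τ) ^ 6 ∣ g` are the coefficients, over the affine line, of a minimal Weierstrass equation.
`exists_min_as`: the additive base change `u = w ^ p - w`; `exists_min_mul`: the multiplicative base
change `u = w ^ m`, of a Weierstrass equation with `N = 1` and `j` not constant. There is no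
condition on the fibres of `W`.
-/

set_option autoImplicit false
set_option linter.unusedSectionVars false

namespace CX.CHC

open CX.VC CX.CHI CX.Pool.Agent.Helper21.TO Polynomial
open CX.Pool.Agent.Helper51.EW (Wei)
open _root_.Pool.Agent.Helper9.CHI (exists_root)

universe u

variable {k : Type u} [Field k]

/-- The multiplicity of a root of a composition. -/
theorem dvd_of_comp {q : k[X]} {τ : k} (hq : (derivative q).eval τ ≠ 0) {f : k[X]} {j : ℕ}
    (h : (X - C τ) ^ j ∣ f.comp q) : (X - C (q.eval τ)) ^ j ∣ f := by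
  rcases eq_or_ne f 0 with rfl | hf
  · exact dvd_zero _
  obtain ⟨g, hg, hgd⟩ := exists_eq_pow_rootMultiplicity_mul_and_not_dvd f hf (q.eval τ)
  set r := f.rootMultiplicity (q.eval τ) with hr
  obtain ⟨s, hs⟩ : X - C τ ∣ (q - C (q.eval τ) : k[X]) := by
    rw [dvd_iff_isRoot, IsRoot, eval_sub, eval_C, sub_self]
  have hs0 : s.eval τ ≠ 0 := by
    have h1 := congrArg (fun p => (derivative p).eval τ) hs
    simp only [derivative_sub, derivative_C, derivative_mul, derivative_X, eval_sub, eval_mul,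
      eval_add, eval_X, eval_C, sub_zero, sub_self, zero_mul, add_zero, one_mul] at h1
    rw [← h1]
    exact hq
  have hexp : f.comp q = (X - C τ) ^ r * (s ^ r * g.comp q) := by
    conv_lhs => rw [hg]
    rw [mul_comp, pow_comp, sub_comp, X_comp, C_comp, hs, mul_pow, mul_assoc]
  have hne : ¬ (X - C τ) ∣ s ^ r * g.comp q := by
    rw [dvd_iff_isRoot, IsRoot, eval_mul, eval_pow, eval_comp]
    intro h0
    rcases mul_eq_zero.mp h0 with h0 | h0
    · exact pow_ne_zero _ hs0 h0
    · exact hgd (dvd_iff_isRoot.mpr h0)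
  have hjr : j ≤ r := by
    by_contra hlt
    apply hne
    have h1 : (X - C τ) ^ (r + 1) ∣ f.comp q := (pow_dvd_pow _ (by omega)).trans h
    rw [hexp, pow_succ] at h1
    exact (mul_dvd_mul_iff_left (pow_ne_zero _ (X_sub_C_ne_zero τ))).mp h1
  rw [hg]
  exact (pow_dvd_pow _ hjr).trans (dvd_mul_right _ _)

/-! ### Binary forms -/

/-- The binary form of degree `n`. -/
noncomputable def form (n : ℕ) (A : k[X]) : MvPolynomial (Fin 2) k :=
  ∑ i ∈ Finset.range (n + 1),
    MvPolynomial.C (A.coeff i) * (MvPolynomial.X 0 ^ (n - i) * MvPolynomial.X 1 ^ i)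

theorem form_hom (n : ℕ) (A : k[X]) : (form n A).IsHomogeneous n := by
  refine MvPolynomial.IsHomogeneous.sum _ _ _ fun i hi => ?_
  have hi' : i ≤ n := Nat.lt_succ_iff.mp (Finset.mem_range.mp hi)
  have h1 := (MvPolynomial.isHomogeneous_X k (0 : Fin 2)).pow (n - i)
  have h2 := (MvPolynomial.isHomogeneous_X k (1 : Fin 2)).pow i
  have h3 := (MvPolynomial.isHomogeneous_C (Fin 2) (A.coeff i)).mul (h1.mul h2)
  rwa [show 0 + (1 * (n - i) + 1 * i) = n by omega] at h3

theorem aeval_form {n : ℕ} {A : k[X]} (hA : A.natDegree ≤ n) :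
    MvPolynomial.aeval (![1, X] : Fin 2 → k[X]) (form n A) = A := by
  unfold form
  rw [map_sum]
  conv_rhs => rw [A.as_sum_range_C_mul_X_pow' (Nat.lt_succ_of_le hA)]
  refine Finset.sum_congr rfl fun i _ => ?_
  rw [map_mul, map_mul, map_pow, map_pow, MvPolynomial.aeval_X, MvPolynomial.aeval_X,
    MvPolynomial.algHom_C]
  simp

theorem aeval_form_inf (n : ℕ) (A : k[X]) :
    MvPolynomial.aeval (![X, 1] : Fin 2 → k[X]) (form n A) =
      ∑ i ∈ Finset.range (n + 1), C (A.coeff i) * X ^ (n - i) := by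
  unfold form
  rw [map_sum]
  refine Finset.sum_congr rfl fun i _ => ?_
  rw [map_mul, map_mul, map_pow, map_pow, MvPolynomial.aeval_X, MvPolynomial.aeval_X,
    MvPolynomial.algHom_C]
  simp

/-- A form divisible by the `e`-th power of the coordinate `X 0` has a small degree. -/
theorem degree_of_dvd {n e : ℕ} {A : k[X]} (hA : A.natDegree ≤ n) (he : e ≤ n)
    (h : (X : k[X]) ^ e ∣ MvPolynomial.aeval (![X, 1] : Fin 2 → k[X]) (form n A)) :
    A.natDegree ≤ n - e := by
  rw [aeval_form_inf, X_pow_dvd_iff] at h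
  rw [natDegree_le_iff_coeff_eq_zero]
  intro N hN
  rcases Nat.lt_or_ge n N with h1 | h1
  · exact coeff_eq_zero_of_natDegree_lt (by omega)
  · have h2 := h (n - N) (by omega)
    rw [finsetSum_coeff, Finset.sum_eq_single N] at h2
    · rwa [coeff_C_mul, coeff_X_pow, if_pos rfl, mul_one] at h2
    · intro i hi hiN
      have hi' : i ≤ n := Nat.lt_succ_iff.mp (Finset.mem_range.mp hi)
      rw [coeff_C_mul, coeff_X_pow, if_neg (by omega), mul_zero]
    · intro h3
      exact absurd (Finset.mem_range.mpr (by omega)) h3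

theorem scale_eval {n : ℕ} {F : MvPolynomial (Fin 2) k} (hF : F.IsHomogeneous n) (c : k)
    (u : Fin 2 → k) :
    MvPolynomial.eval (fun i => c * u i) F = c ^ n * MvPolynomial.eval u F := by
  have h := aeval_smul' (K := k) hF c u
  simpa [MvPolynomial.coe_aeval_eq_eval] using h

theorem eval_aeval (u : Fin 2 → k[X]) (F : MvPolynomial (Fin 2) k) (c : k) :
    (MvPolynomial.aeval u F : k[X]).eval c = MvPolynomial.eval (fun i => (u i).eval c) F := by
  have h := MvPolynomial.comp_aeval_apply (aeval c : k[X] →ₐ[k] k) (f := u) F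
  rw [coe_aeval_eq_eval] at h
  rw [h]
  rfl

theorem dvd_aeval {l F : MvPolynomial (Fin 2) k} {e : ℕ} (h : l ^ e ∣ F) (u : Fin 2 → k[X])
    {q : k[X]} (hq : q ∣ MvPolynomial.aeval u l) : q ^ e ∣ (MvPolynomial.aeval u F : k[X]) := by
  refine (pow_dvd_pow_of_dvd hq e).trans ?_
  obtain ⟨r, rfl⟩ := h
  rw [map_mul, map_pow]
  exact dvd_mul_right _ _

theorem const_zero {e : ℕ} {A : k[X]} (he : 0 < e) (hA : A.natDegree ≤ 0)
    (hd : (X : k[X]) ^ e ∣ MvPolynomial.aeval (![X, 1] : Fin 2 → k[X]) (form 0 A)) : A = 0 := by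
  rw [aeval_form_inf, X_pow_dvd_iff] at hd
  have h2 := hd 0 he
  rw [Nat.zero_add, Finset.sum_range_one, coeff_C_mul, coeff_X_pow, if_pos rfl, mul_one] at h2
  rw [eq_C_of_natDegree_le_zero hA, h2, C_0]

/-- The minimal Weierstrass equation with given coefficients over the affine line. -/
theorem exists_model {f g : k[X]} (h : ∀ τ : k, ¬ ((X - C τ) ^ 4 ∣ f ∧ (X - C τ) ^ 6 ∣ g)) :
    ∃ V : Wei k, MvPolynomial.aeval (![1, X] : Fin 2 → k[X]) V.A = f ∧
      MvPolynomial.aeval (![1, X] : Fin 2 → k[X]) V.B = g ∧ Minimal V := by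
  classical
  obtain ⟨N, ⟨hf, hg⟩, hmin⟩ : ∃ N : ℕ, (f.natDegree ≤ 4 * N ∧ g.natDegree ≤ 6 * N) ∧
      ∀ m < N, ¬ (f.natDegree ≤ 4 * m ∧ g.natDegree ≤ 6 * m) := by
    have hex : ∃ N : ℕ, f.natDegree ≤ 4 * N ∧ g.natDegree ≤ 6 * N :=
      ⟨f.natDegree + g.natDegree, by omega, by omega⟩
    exact ⟨Nat.find hex, Nat.find_spec hex, fun m hm => Nat.find_min hex hm⟩
  refine ⟨⟨N, form (4 * N) f, form (6 * N) g, form_hom _ _, form_hom _ _⟩, aeval_form hf,
    aeval_form hg, ?_⟩
  intro l hl hl0 ⟨hlA, hlB⟩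
  change l ^ 4 ∣ form (4 * N) f at hlA
  change l ^ 6 ∣ form (6 * N) g at hlB
  obtain ⟨z, hz, hlz⟩ := exists_root hl
  rcases eq_or_ne (z 0) 0 with hz0 | hz0
  · have hz1 : z 1 ≠ 0 := by
      intro h1
      apply hz
      funext i
      fin_cases i
      · exact hz0
      · exact h1
    have hl1 : MvPolynomial.eval (![0, 1] : Fin 2 → k) l = 0 := by
      have e : z = fun i => z 1 * (![0, 1] : Fin 2 → k) i := by
        funext i
        fin_cases i
        · change z 0 = z 1 * 0
          rw [hz0, mul_zero]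
        · change z 1 = z 1 * 1
          rw [mul_one]
      rw [e, scale_eval hl, pow_one] at hlz
      exact (mul_eq_zero.mp hlz).resolve_left hz1
    have hXl : (X : k[X]) ∣ MvPolynomial.aeval (![X, 1] : Fin 2 → k[X]) l := by
      have e : (fun i => ((![X, 1] : Fin 2 → k[X]) i).eval 0) = ![0, 1] := by
        funext i
        fin_cases i
        · change (X : k[X]).eval 0 = 0
          exact eval_X
        · change (1 : k[X]).eval 0 = 1
          exact eval_one
      rw [X_dvd_iff, coeff_zero_eq_eval_zero, eval_aeval, e, hl1]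
    have hA4 := dvd_aeval hlA _ hXl
    have hB6 := dvd_aeval hlB _ hXl
    rcases Nat.eq_zero_or_pos N with hN | hN
    · subst hN
      have hf0 : f = 0 := const_zero (e := 4) (by norm_num) hf hA4
      have hg0 : g = 0 := const_zero (e := 6) (by norm_num) hg hB6
      apply h 0
      rw [hf0, hg0]
      exact ⟨dvd_zero _, dvd_zero _⟩
    · apply hmin (N - 1) (by omega)
      have h4 := degree_of_dvd hf (by omega) hA4
      have h6 := degree_of_dvd hg (by omega) hB6
      constructor <;> omega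
  · apply h (z 1 / z 0)
    have hdl : (X - C (z 1 / z 0)) ∣ MvPolynomial.aeval (![1, X] : Fin 2 → k[X]) l := by
      rw [dvd_iff_isRoot, IsRoot, eval_aeval]
      have e : (fun i => ((![1, X] : Fin 2 → k[X]) i).eval (z 1 / z 0)) =
          fun i => (z 0)⁻¹ * z i := by
        funext i
        fin_cases i
        · change (1 : k[X]).eval _ = (z 0)⁻¹ * z 0
          rw [eval_one, inv_mul_cancel₀ hz0]
        · change (X : k[X]).eval _ = (z 0)⁻¹ * z 1
          rw [eval_X, div_eq_inv_mul]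
      rw [e, scale_eval hl, hlz, mul_zero]
    have h4 := dvd_aeval hlA _ hdl
    have h6 := dvd_aeval hlB _ hdl
    rw [aeval_form hf] at h4
    rw [aeval_form hg] at h6
    exact ⟨h4, h6⟩

/-! ### Base changes -/

theorem natDegree_aff {n : ℕ} {F : MvPolynomial (Fin 2) k} (hF : F.IsHomogeneous n) :
    (MvPolynomial.aeval (![1, X] : Fin 2 → k[X]) F).natDegree ≤ n := by
  rw [← _root_.Pool.Agent.Helper9.CHI.deh_std]
  exact CX.Pool.Agent.Helper83.EW.natDegree_deh_le _ hF

theorem const_mul {c : k} {n : ℕ} {f : k[X]} (hn : f.natDegree ≤ n) (h : (X - C c) ^ n ∣ f) :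
    ∃ a : k, f = C a * (X - C c) ^ n := by
  obtain ⟨q, rfl⟩ := h
  rcases eq_or_ne q 0 with rfl | hq
  · exact ⟨0, by simp⟩
  have h2 : ((X - C c : k[X]) ^ n).natDegree = n := by
    rw [natDegree_pow, natDegree_X_sub_C, mul_one]
  rw [natDegree_mul (pow_ne_zero _ (X_sub_C_ne_zero _)) hq, h2] at hn
  have h3 : q.natDegree = 0 := by omega
  rw [natDegree_eq_zero] at h3
  obtain ⟨a, rfl⟩ := h3
  exact ⟨a, mul_comm _ _⟩

/-- A rational Weierstrass equation with nonconstant `j` is minimal over the affine line. -/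
theorem no_bad [Infinite k] {W : Wei k} (hN : W.N = 1)
    (hj : ∀ c d : k, (c ≠ 0 ∨ d ≠ 0) →
      MvPolynomial.C c * W.A ^ 3 ≠ MvPolynomial.C d * W.B ^ 2) (c : k) :
    ¬ ((X - C c) ^ 4 ∣ MvPolynomial.aeval (![1, X] : Fin 2 → k[X]) W.A ∧
      (X - C c) ^ 6 ∣ MvPolynomial.aeval (![1, X] : Fin 2 → k[X]) W.B) := by
  rintro ⟨h4, h6⟩
  have hAh : W.A.IsHomogeneous 4 := by have := W.hA; rwa [hN] at this
  have hBh : W.B.IsHomogeneous 6 := by have := W.hB; rwa [hN] at this
  obtain ⟨a, ha⟩ := const_mul (natDegree_aff hAh) h4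
  obtain ⟨b, hb⟩ := const_mul (natDegree_aff hBh) h6
  have hTA : ∀ T : k, MvPolynomial.aeval (![1, T] : Fin 2 → k) W.A = a * (T - c) ^ 4 := by
    intro T
    have h1 := congrArg (aeval T) ha
    rw [aeval_poly, aeval_X] at h1
    rw [h1]
    simp
  have hTB : ∀ T : k, MvPolynomial.aeval (![1, T] : Fin 2 → k) W.B = b * (T - c) ^ 6 := by
    intro T
    have h1 := congrArg (aeval T) hb
    rw [aeval_poly, aeval_X] at h1
    rw [h1]
    simp
  have key : ∀ c' d : k, c' * a ^ 3 = d * b ^ 2 →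
      MvPolynomial.C c' * W.A ^ 3 = MvPolynomial.C d * W.B ^ 2 := by
    intro c' d hcd
    have h1 := (MvPolynomial.isHomogeneous_C (Fin 2) c').mul (hAh.pow 3)
    have h2 := (MvPolynomial.isHomogeneous_C (Fin 2) d).mul (hBh.pow 2)
    rw [show 0 + 4 * 3 = 12 by norm_num] at h1
    rw [show 0 + 6 * 2 = 12 by norm_num] at h2
    refine form_ext h1 h2 fun T => ?_
    rw [map_mul, map_mul, map_pow, map_pow, MvPolynomial.algHom_C, MvPolynomial.algHom_C, hTA, hTB]
    change c' * _ = d * _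
    linear_combination (T - c) ^ 12 * hcd
  by_cases hab : a = 0 ∧ b = 0
  · obtain ⟨rfl, rfl⟩ := hab
    exact hj 1 0 (Or.inl one_ne_zero) (key 1 0 (by ring))
  · refine hj (b ^ 2) (a ^ 3) ?_ (key _ _ (mul_comm _ _))
    by_contra hcon
    push Not at hcon
    apply hab
    exact ⟨(pow_eq_zero_iff (by norm_num)).mp hcon.2, (pow_eq_zero_iff (by norm_num)).mp hcon.1⟩

theorem aeval_comp (F : MvPolynomial (Fin 2) k) (q : k[X]) :
    MvPolynomial.aeval (![1, q] : Fin 2 → k[X]) F =
      (MvPolynomial.aeval (![1, X] : Fin 2 → k[X]) F).comp q := by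
  have h := MvPolynomial.comp_aeval_apply (aeval q : k[X] →ₐ[k] k[X])
    (f := (![1, X] : Fin 2 → k[X])) F
  have e : (fun i => aeval q ((![1, X] : Fin 2 → k[X]) i)) = ![1, q] := by
    funext i
    fin_cases i
    · change aeval q (1 : k[X]) = 1
      exact map_one _
    · change aeval q (X : k[X]) = q
      exact aeval_X q
  rw [e] at h
  rw [← h]
  rfl

/-- The minimal model of the additive base change of a rational Weierstrass equation. -/
theorem exists_min_as [Infinite k] {p : ℕ} [Fact p.Prime] [CharP k p] {W : Wei k} (hN : W.N = 1)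
    (hj : ∀ c d : k, (c ≠ 0 ∨ d ≠ 0) →
      MvPolynomial.C c * W.A ^ 3 ≠ MvPolynomial.C d * W.B ^ 2) :
    ∃ V : Wei k, IsAS W V p ∧ Minimal V := by
  obtain ⟨V, h1, h2, h3⟩ := exists_model (k := k)
    (f := MvPolynomial.aeval (![1, X ^ p - X] : Fin 2 → k[X]) W.A)
    (g := MvPolynomial.aeval (![1, X ^ p - X] : Fin 2 → k[X]) W.B) (by
      rintro τ ⟨h4, h6⟩
      rw [aeval_comp] at h4 h6
      have hd : (derivative (X ^ p - X : k[X])).eval τ ≠ 0 := by
        rw [derivative_sub, derivative_X_pow, derivative_X, CharP.cast_eq_zero, map_zero, zero_mul,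
          zero_sub, eval_neg, eval_one]
        exact neg_ne_zero.mpr one_ne_zero
      exact no_bad hN hj _ ⟨dvd_of_comp hd h4, dvd_of_comp hd h6⟩)
  exact ⟨V, ⟨h1, h2⟩, h3⟩

/-- `V` is the base change of `W` by `u = w ^ m` over the complement of `0` and `∞`, with the
coordinates `w ^ (- 2 j) x`, `w ^ (- 3 j) y`. -/
structure IsMul (W V : Wei k) (m j : ℕ) : Prop where
  A : X ^ (4 * j) * MvPolynomial.aeval (![1, X] : Fin 2 → k[X]) V.A =
    MvPolynomial.aeval (![1, X ^ m] : Fin 2 → k[X]) W.A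
  B : X ^ (6 * j) * MvPolynomial.aeval (![1, X] : Fin 2 → k[X]) V.B =
    MvPolynomial.aeval (![1, X ^ m] : Fin 2 → k[X]) W.B

/-- The minimal model of the multiplicative base change of a rational Weierstrass equation. -/
theorem exists_min_mul [Infinite k] {m : ℕ} (hm : (m : k) ≠ 0) {W : Wei k} (hN : W.N = 1)
    (hj : ∀ c d : k, (c ≠ 0 ∨ d ≠ 0) →
      MvPolynomial.C c * W.A ^ 3 ≠ MvPolynomial.C d * W.B ^ 2) :
    ∃ (V : Wei k) (j : ℕ), IsMul W V m j ∧ Minimal V := by
  classical
  set A' : k[X] := MvPolynomial.aeval (![1, X ^ m] : Fin 2 → k[X]) W.A with hA'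
  set B' : k[X] := MvPolynomial.aeval (![1, X ^ m] : Fin 2 → k[X]) W.B with hB'
  have hm0 : m ≠ 0 := by rintro rfl; exact hm Nat.cast_zero
  -- the forms are not both zero
  have hne : A' ≠ 0 ∨ B' ≠ 0 := by
    by_contra hcon
    push Not at hcon
    obtain ⟨hA0, hB0⟩ := hcon
    rw [hA', aeval_comp] at hA0
    rw [hB', aeval_comp] at hB0
    have hz : ∀ q : k[X], q.comp (X ^ m) = 0 → q = 0 := by
      intro q hq
      rw [← expand_eq_comp_X_pow] at hq
      exact (expand_eq_zero (Nat.pos_of_ne_zero hm0)).mp hq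
    apply no_bad hN hj 0
    rw [hz _ hA0, hz _ hB0]
    exact ⟨dvd_zero _, dvd_zero _⟩
  -- the largest exponent
  obtain ⟨j, ⟨hjA, hjB⟩, hmax⟩ : ∃ j : ℕ, ((X : k[X]) ^ (4 * j) ∣ A' ∧ (X : k[X]) ^ (6 * j) ∣ B') ∧
      ¬ ((X : k[X]) ^ (4 * (j + 1)) ∣ A' ∧ (X : k[X]) ^ (6 * (j + 1)) ∣ B') := by
    by_contra hcon
    push Not at hcon
    have h1 : ∀ j : ℕ, (X : k[X]) ^ (4 * j) ∣ A' ∧ (X : k[X]) ^ (6 * j) ∣ B' := by
      intro j
      induction j with
      | zero => simp
      | succ j ih => exact hcon j ih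
    rcases hne with h | h
    · have h2 := natDegree_le_of_dvd (h1 (A'.natDegree + 1)).1 h
      rw [natDegree_pow, natDegree_X] at h2
      omega
    · have h2 := natDegree_le_of_dvd (h1 (B'.natDegree + 1)).2 h
      rw [natDegree_pow, natDegree_X] at h2
      omega
  obtain ⟨f, hf⟩ := hjA
  obtain ⟨g, hg⟩ := hjB
  obtain ⟨V, h1, h2, h3⟩ := exists_model (k := k) (f := f) (g := g) (by
    rintro τ ⟨h4, h6⟩
    rcases eq_or_ne τ 0 with rfl | hτ
    · rw [C_0, sub_zero] at h4 h6
      apply hmax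
      constructor
      · rw [hf, mul_add, mul_one, pow_add]
        exact mul_dvd_mul_left _ h4
      · rw [hg, mul_add, mul_one, pow_add]
        exact mul_dvd_mul_left _ h6
    · have h4' : (X - C τ) ^ 4 ∣ A' := hf ▸ h4.mul_left _
      have h6' : (X - C τ) ^ 6 ∣ B' := hg ▸ h6.mul_left _
      rw [hA', aeval_comp] at h4'
      rw [hB', aeval_comp] at h6'
      have hd : (derivative (X ^ m : k[X])).eval τ ≠ 0 := by
        rw [derivative_X_pow, eval_mul, eval_C, eval_pow, eval_X]
        exact mul_ne_zero hm (pow_ne_zero _ hτ)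
      exact no_bad hN hj _ ⟨dvd_of_comp hd h4', dvd_of_comp hd h6'⟩)
  exact ⟨V, j, ⟨by rw [h1, ← hf], by rw [h2, ← hg]⟩, h3⟩

end CX.CHC
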